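import Pool.Agent.helper99.PLR.Spec

/-!
# Row plr:FNA: part (a)
-/

set_option autoImplicit false

open scoped Classical

namespace Pool.Agent.PLR

open Finset
open Pool.Agent.helper65.HC (V IsEig IsTop lam)
open Pool.Agent.helper9.HQ (Fam Dn E N Le Eig lk)
open Pool.Agent.helper9.HX (Ef)
open Pool.Agent.helper9.HLR (cel Lc)

noncomputable section

theorem FNA_sqrt (d K : ℝ) (hK : 0 ≤ K) (hd : 0 < d) (hKd : K ≤ d) : √d - K / √d ≤ √(d - K) := by
  have hs : 0 < √d := Real.sqrt_pos.2 hd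
  have hs2 : √d ^ 2 = d := Real.sq_sqrt hd.le
  apply Real.le_sqrt_of_sq_le
  have h1 : √d * (K / √d) = K := by field_simp
  have h2 : (K / √d) ^ 2 ≤ K := by
    rw [div_pow, hs2, div_le_iff₀ hd]
    nlinarith
  calc (√d - K / √d) ^ 2 = √d ^ 2 - 2 * (√d * (K / √d)) + (K / √d) ^ 2 := by ring
    _ = d - 2 * K + (K / √d) ^ 2 := by rw [hs2, h1]
    _ ≤ d - K := by linarith

theorem FNA_pow (k K : ℕ) : ∃ d₁ : ℕ, ∀ d ≥ d₁, (K + 1) * d.choose k ≤ 2 ^ d := by
  have h := tendsto_pow_const_div_const_pow_of_one_lt k (r := (2 : ℝ)) (by norm_num)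
  have h2 := h.eventually (gt_mem_nhds (show (0 : ℝ) < 1 / (K + 1) by positivity))
  obtain ⟨d₁, hd₁⟩ := Filter.eventually_atTop.1 h2
  refine ⟨d₁, fun d hd => ?_⟩
  have h3 := hd₁ d hd
  have h4 : (0 : ℝ) < 2 ^ d := by positivity
  rw [div_lt_div_iff₀ h4 (by positivity), one_mul] at h3
  have h5 : (d.choose k : ℝ) ≤ (d : ℝ) ^ k := by exact_mod_cast Nat.choose_le_pow d k
  have h6 : ((K : ℝ) + 1) * d.choose k ≤ 2 ^ d := by
    have := mul_le_mul_of_nonneg_left h5 (by positivity : (0 : ℝ) ≤ (K : ℝ) + 1)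
    nlinarith
  exact_mod_cast h6

theorem FNA_low (d k K D : ℝ) (hk : 0 ≤ k) (hK : 0 ≤ K) (hD : D = d - (K + k)) (hd : 0 < d)
    (hd4 : d ≤ 4 * D) : √d - (K + 3 * k) / √d ≤ √D * (1 - k / D) := by
  have hD0 : 0 < D := by linarith
  have hs : 0 < √d := Real.sqrt_pos.2 hd
  have hsD : 0 < √D := Real.sqrt_pos.2 hD0
  have h1 := FNA_sqrt d (K + k) (by linarith) hd (by linarith)
  rw [← hD] at h1
  have h2 : √D * (1 - k / D) = √D - k / √D := by
    have h3 : √D * √D = D := Real.mul_self_sqrt hD0.le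
    field_simp
    nlinarith
  have h4 : √d ≤ 2 * √D := by
    have h5 : √(4 * D) = 2 * √D := by
      rw [Real.sqrt_mul (by norm_num)]
      congr 1
      rw [show (4 : ℝ) = 2 ^ 2 by norm_num, Real.sqrt_sq (by norm_num)]
    rw [← h5]
    exact Real.sqrt_le_sqrt hd4
  have h6 : k / √D ≤ 2 * k / √d := by
    rw [div_le_div_iff₀ hsD hs]
    nlinarith
  have h7 : (K + 3 * k) / √d = (K + k) / √d + 2 * k / √d := by
    rw [← add_div]
    congr 1
    ring
  rw [h2, h7]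
  linarith

theorem FNA (hHZP : HZP_stmt) (hDC : Pool.Agent.helper9.HQ.DC_stmt) (hASA : ASA_stmt) (hLBK : LBK_stmt) :
    FNA_stmt := by
  intro k K hk hK
  obtain ⟨C, d₀, hC, h⟩ := hASA k K hk hK
  obtain ⟨d₁, hd₁⟩ := FNA_pow k K
  obtain ⟨-, hh0, -, -⟩ := hHZP k
  set hh : ℝ := hz (k + 1) with hhh
  have hX0 : 0 ≤ hh * (K + 3 * k) := mul_nonneg hh0 (by positivity)
  refine ⟨C + hh * (K + 3 * k), max (max d₀ d₁) (4 * K + 8 * k + 8), by linarith, ?_⟩
  intro d hd m hm1 hm2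
  have hd0 : d₀ ≤ d := ((le_max_left _ _).trans (le_max_left _ _)).trans hd
  have hd1 : d₁ ≤ d := ((le_max_right _ _).trans (le_max_left _ _)).trans hd
  have hdK : 4 * K + 8 * k + 8 ≤ d := (le_max_right _ _).trans hd
  have hdpos : (0 : ℝ) < d := by
    have : 0 < d := by omega
    exact_mod_cast this
  have hsd : 0 < √(d : ℝ) := Real.sqrt_pos.2 hdpos
  have hm2d : m ≤ 2 ^ d := hm2.le.trans (hd₁ d hd1)
  have hb0 : 0 < d.choose k := Nat.choose_pos (by omega)
  have hm0 : 1 ≤ m := le_trans (Nat.mul_pos hK hb0) hm1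
  have hG := Pool.Agent.helper65.HC.lam_isGreatest d m hm0 hm2d
  have hmr : (m : ℝ) < (K + 1) * (d.choose k : ℝ) := by exact_mod_cast hm2
  have ht0 : 0 < ((K : ℝ) + 1) * (d.choose k : ℝ) - m := by linarith
  have hbr : (0 : ℝ) < (d.choose k : ℝ) := by exact_mod_cast hb0
  refine ⟨hG, ?_, ?_⟩
  · obtain ⟨D, hD⟩ : ∃ D, D = d - (K + k) := ⟨_, rfl⟩
    have hDr : (D : ℝ) = d - (K + k) := by
      rw [hD, Nat.cast_sub (by omega)]
      push_cast
      ring
    have hDk : D + k = d - K := by omega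
    have h1 := hLBK k K D d m hk hK (by omega) (by omega) (by
      rw [hDk]
      exact (Nat.mul_le_mul_left K (Nat.choose_le_choose k (Nat.sub_le d K))).trans hm1) hm2d
    have h2 := FNA_low (d : ℝ) k K D (Nat.cast_nonneg _) (Nat.cast_nonneg _) hDr hdpos (by
      have : d ≤ 4 * D := by omega
      exact_mod_cast this)
    have h3 := mul_le_mul_of_nonneg_left h2 hh0
    have h4 : hh * (√(d : ℝ) - (K + 3 * k) / √d) = hh * √(d : ℝ) - hh * (K + 3 * k) / √d := by ring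
    have h5 : hh * (√(D : ℝ) * (1 - k / D)) = hh * √(D : ℝ) * (1 - k / D) := by ring
    have h6 : (C + hh * (K + 3 * k)) / √(d : ℝ) = C / √d + hh * (K + 3 * k) / √d := add_div _ _ _
    have h7 : 0 < C / √(d : ℝ) := div_pos hC hsd
    rw [h4, h5] at h3
    rw [h6]
    linarith
  · obtain ⟨U, hU, ht⟩ := hG.1
    obtain ⟨A, hA, hAc, f, hN, hE⟩ := hDC d U (lam d m) ht.1
    rw [hU] at hAc
    have h1 := h d hd0 A hA (by rw [hAc]; exact hm2) f
    rw [hN, mul_one, hAc] at h1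
    have h2 : C * (d.choose k : ℝ) / (√d * ((K + 1) * (d.choose k : ℝ) - m)) ≤
        (C + hh * (K + 3 * k)) * (d.choose k : ℝ) / (√d * ((K + 1) * (d.choose k : ℝ) - m)) :=
      div_le_div_of_nonneg_right (mul_le_mul_of_nonneg_right (by linarith) hbr.le)
        (mul_pos hsd ht0).le
    linarith

end

end Pool.Agent.PLR
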